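import Pool.Agent.H34.GA.Targets1

/-!
Board ga, row NZR: the convolutions with small bump functions do not vanish.
-/

set_option autoImplicit false

namespace Pool.Agent.H50.GA

open MeasureTheory Pool.Agent.H34.GM Pool.Agent.H34.GZ Pool.Agent.H34.GU Pool.Agent.H34.GA

theorem cont_det (m : ℕ) : Continuous (fun z : V m => (mt z).det) :=
  (show Continuous (fun z : V m => mt z) from continuous_id).matrix_det

theorem cont_inv (m : ℕ) : ContinuousOn (fun z : V m => (mt z)⁻¹) {z | (mt z).det ≠ 0} := by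
  have h1 : (fun z : V m => (mt z)⁻¹) = fun z : V m => ((mt z).det)⁻¹ • (mt z).adjugate := by
    funext z
    rw [Matrix.inv_def, Ring.inverse_eq_inv']
  have h2 : ContinuousOn (fun z : V m => ((mt z).det)⁻¹) {z | (mt z).det ≠ 0} :=
    (cont_det m).continuousOn.inv₀ (fun z hz => hz)
  have h3 : ContinuousOn (fun z : V m => (mt z).adjugate) {z | (mt z).det ≠ 0} :=
    ((show Continuous (fun z : V m => mt z) from continuous_id).matrix_adjugate).continuousOn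
  rw [h1]
  exact h2.smul h3

theorem det_inv_ne {m : ℕ} (z : Mat m) (hz : z.det ≠ 0) : (z⁻¹).det ≠ 0 := by
  rw [Matrix.det_nonsing_inv, Ring.inverse_eq_inv']
  exact inv_ne_zero hz

theorem shell_pos {m : ℕ} (hm1 : 1 ≤ m) {z : V m} (hz : z ∈ Shell m) :
    0 < aN (mt z) ∧ (mt z).det ≠ 0 := by
  have h1 : 1 ≤ aN (mt z) := hz.1
  refine ⟨by linarith, fun h0 => ?_⟩
  have h2 : aN (mt z) = 0 := by
    unfold aN
    rw [h0, abs_zero, Real.zero_rpow]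
    have : (0 : ℝ) < m := by exact_mod_cast hm1
    positivity
  rw [h2] at h1
  linarith

theorem inv_scal {m : ℕ} (g0 z : Mat m) (r : ℝ) (hr : 0 < r) (hz : z.det ≠ 0) :
    g0 * (((1 : ℝ)⁻¹ * r⁻¹) • z)⁻¹ = r • (g0 * z⁻¹) := by
  have h1 : (((1 : ℝ)⁻¹ * r⁻¹) • z)⁻¹ = r • z⁻¹ := by
    refine Matrix.inv_eq_right_inv ?_
    rw [inv_one, one_mul, Matrix.smul_mul, Matrix.mul_smul, smul_smul, inv_mul_cancel₀ hr.ne',
      one_smul]
    exact Matrix.mul_nonsing_inv z (isUnit_iff_ne_zero.2 hz)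
  rw [h1, Matrix.mul_smul]

/-- continuity at `g0` -/
theorem near {m : ℕ} (f : Mat m → ℂ) (hf : ContinuousOn f {g | g.det ≠ 0}) (g0 : Mat m)
    (hg0 : g0.det ≠ 0) (ε : ℝ) (hε : 0 < ε) :
    ∃ η : ℝ, 0 < η ∧ ∀ w : Mat m, sz (w - 1) ≤ η → ‖f (g0 * w) - f g0‖ ≤ ε := by
  have hop : IsOpen {g : Mat m | g.det ≠ 0} :=
    isOpen_ne_fun (show Continuous (fun g : Mat m => g.det) from continuous_id.matrix_det)
      continuous_const
  have h1 : ContinuousAt f g0 := hf.continuousAt (hop.mem_nhds hg0)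
  let o : V m := fun i j => (1 : Mat m) i j
  have h2 : ContinuousAt (fun w : V m => g0 * mt w) o :=
    (continuous_const.mul (show Continuous (fun w : V m => mt w) from continuous_id)).continuousAt
  have ho : g0 * mt o = g0 := mul_one g0
  have h3 : ContinuousAt (fun w : V m => f (g0 * mt w)) o := by
    refine ContinuousAt.comp (g := f) (f := fun w : V m => g0 * mt w) ?_ h2
    rw [ho]
    exact h1
  obtain ⟨δ, hδ, h4⟩ := Metric.continuousAt_iff.1 h3 ε hε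
  refine ⟨δ / 2, by positivity, fun w hw => ?_⟩
  have h5 : dist (fun i j => w i j : V m) o < δ := by
    rw [dist_eq_norm]
    have h6 : ‖(fun i j => w i j : V m) - o‖ = sz (w - 1) := rfl
    rw [h6]
    linarith
  have h7 := h4 h5
  rw [dist_eq_norm] at h7
  have h8 : f (g0 * mt (fun i j => w i j : V m)) = f (g0 * w) := rfl
  rw [h8] at h7
  have h9 : f (g0 * mt o) = f g0 := by rw [ho]
  rw [h9] at h7
  exact h7.le

theorem pf_NZR : T_BIA → T_TBA → T_MSR → T_NZR := by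
  intro hB hT hM m N _ T D hS F lam hF hNZ χ hχ
  obtain ⟨g0, x0, hg0, hne⟩ := hNZ
  have hm1 := hS.one_le
  obtain ⟨C, hC, hbi⟩ := hB m χ hm1 hχ
  obtain ⟨c, C', A, hc, hC', htb⟩ := hT m χ hm1 hχ
  have ha : 0 < ‖F g0 x0‖ := norm_pos_iff.2 hne
  obtain ⟨η, hη, hnear⟩ := near (fun g => F g x0) (hF.cont x0) g0 hg0 (‖F g0 x0‖ / 2)
    (by positivity)
  have hC0 : 0 < C := by linarith
  refine ⟨min (1 / 2) (η / C), by positivity, min_le_left _ _, g0, x0, hg0, ?_⟩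
  set δ := min (1 / 2) (η / C) with hδ
  have hδ0 : 0 < δ := by positivity
  have hδ2 : δ ≤ 1 / 2 := min_le_left _ _
  have hCδ : C * δ ≤ η := by
    have : δ ≤ η / C := min_le_right _ _
    calc C * δ ≤ C * (η / C) := by gcongr
      _ = η := by field_simp
  obtain ⟨hTg, hb⟩ := hbi δ hδ0 hδ2
  obtain ⟨ht1, -, ht3, ht4⟩ := htb δ hδ0 hδ2
  have htp : 0 < tb m χ δ := lt_of_lt_of_le (by positivity) ht1
  obtain ⟨-, -, hMa, -, -, hMS, -, hMc⟩ := hM.1 m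
  intro hz
  set b : Mat m → ℂ := bi m χ δ with hbdef
  set a : ℂ := F g0 x0 with hadef
  let zn : V m → V m := fun z => ((1 : ℝ)⁻¹ * (aN (mt z))⁻¹) • z
  have hznm : Measurable zn := (measurable_const.mul hMa.inv).smul measurable_id
  have hbm : Measurable (fun z : V m => b (((1 : ℝ)⁻¹ * (aN (mt z))⁻¹) • mt z)) :=
    (hMc b hTg.cont).comp hznm
  let μ : Measure (V m) := (hm m).restrict (Shell m)
  have hbi1 : Integrable (fun z : V m => b (((1 : ℝ)⁻¹ * (aN (mt z))⁻¹) • mt z)) μ := by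
    refine ⟨hbm.aestronglyMeasurable, ?_⟩
    have h1 : L1 b 1 < ⊤ := by
      rw [ht4]
      exact ENNReal.ofReal_lt_top
    unfold L1 at h1
    simp only [ofReal_norm] at h1
    exact h1
  have hFm : AEStronglyMeasurable (fun z : V m => F (g0 * (mt z)⁻¹) x0) μ := by
    have h5 : ContinuousOn (fun z : V m => g0 * (mt z)⁻¹) {z : V m | (mt z).det ≠ 0} :=
      continuousOn_const.mul (cont_inv m)
    have h4 : ContinuousOn (fun z : V m => F (g0 * (mt z)⁻¹) x0) {z : V m | (mt z).det ≠ 0} := by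
      refine (hF.cont x0).comp h5 ?_
      intro z hz
      show (g0 * (mt z)⁻¹).det ≠ 0
      rw [Matrix.det_mul]
      exact mul_ne_zero hg0 (det_inv_ne _ hz)
    exact (h4.mono fun z hz => (shell_pos hm1 hz).2).aestronglyMeasurable hMS
  -- the difference
  have hkey : ∀ z ∈ Shell m, ‖b (((1 : ℝ)⁻¹ * (aN (mt z))⁻¹) • mt z) *
      (F (g0 * (mt z)⁻¹) x0 - a)‖ ≤
        ‖b (((1 : ℝ)⁻¹ * (aN (mt z))⁻¹) • mt z)‖ * (‖a‖ / 2) := by
    intro z hz
    rw [norm_mul]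
    by_cases h0 : b (((1 : ℝ)⁻¹ * (aN (mt z))⁻¹) • mt z) = 0
    · rw [h0, norm_zero, zero_mul, zero_mul]
    · obtain ⟨hp, hd⟩ := shell_pos hm1 hz
      obtain ⟨-, -, -, h1⟩ := (hb _).2.2.1 h0
      have h2 := hnear _ (h1.trans hCδ)
      have h3 : F (g0 * (((1 : ℝ)⁻¹ * (aN (mt z))⁻¹) • mt z)⁻¹) x0 = F (g0 * (mt z)⁻¹) x0 := by
        rw [inv_scal g0 (mt z) (aN (mt z)) hp hd]
        refine hF.scal _ hp _ x0 ?_
        rw [Matrix.det_mul]
        exact mul_ne_zero hg0 (det_inv_ne _ hd)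
      have h2' : ‖F (g0 * (((1 : ℝ)⁻¹ * (aN (mt z))⁻¹) • mt z)⁻¹) x0 - a‖ ≤ ‖a‖ / 2 := h2
      rw [h3] at h2'
      exact mul_le_mul_of_nonneg_left h2' (norm_nonneg _)
  have hae : ∀ᵐ z ∂μ, ‖b (((1 : ℝ)⁻¹ * (aN (mt z))⁻¹) • mt z) *
      (F (g0 * (mt z)⁻¹) x0 - a)‖ ≤
        ‖b (((1 : ℝ)⁻¹ * (aN (mt z))⁻¹) • mt z)‖ * (‖a‖ / 2) :=
    (ae_restrict_mem hMS).mono fun z hz => hkey z hz
  have hdi : Integrable (fun z : V m => b (((1 : ℝ)⁻¹ * (aN (mt z))⁻¹) • mt z) *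
      (F (g0 * (mt z)⁻¹) x0 - a)) μ :=
    (hbi1.norm.mul_const (‖a‖ / 2)).mono'
      (hbm.aestronglyMeasurable.mul (hFm.sub aestronglyMeasurable_const)) hae
  have hba : Integrable (fun z : V m => b (((1 : ℝ)⁻¹ * (aN (mt z))⁻¹) • mt z) * a) μ :=
    hbi1.mul_const a
  have hb1 : ∫ z, b (((1 : ℝ)⁻¹ * (aN (mt z))⁻¹) • mt z) ∂μ = (tb m χ δ : ℂ) := by
    rw [← ht3]
    unfold uu
    simp only [mul_one]
    rfl
  have hb2 : ∫ z, ‖b (((1 : ℝ)⁻¹ * (aN (mt z))⁻¹) • mt z)‖ ∂μ = tb m χ δ := by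
    have h1 : ∫ z, b (((1 : ℝ)⁻¹ * (aN (mt z))⁻¹) • mt z) ∂μ =
        ((∫ z, ‖b (((1 : ℝ)⁻¹ * (aN (mt z))⁻¹) • mt z)‖ ∂μ : ℝ) : ℂ) := by
      rw [← integral_complex_ofReal]
      exact integral_congr_ae (Filter.Eventually.of_forall fun z => (hb _).2.1)
    rw [hb1] at h1
    exact_mod_cast h1.symm
  have hR : ∫ z, b (((1 : ℝ)⁻¹ * (aN (mt z))⁻¹) • mt z) * F (g0 * (mt z)⁻¹) x0 ∂μ = 0 := hz
  have hsum : ∫ z, b (((1 : ℝ)⁻¹ * (aN (mt z))⁻¹) • mt z) *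
      (F (g0 * (mt z)⁻¹) x0 - a) ∂μ = -((tb m χ δ : ℂ) * a) := by
    have h1 : ∫ z, (b (((1 : ℝ)⁻¹ * (aN (mt z))⁻¹) • mt z) *
        (F (g0 * (mt z)⁻¹) x0 - a) + b (((1 : ℝ)⁻¹ * (aN (mt z))⁻¹) • mt z) * a) ∂μ = 0 := by
      rw [← hR]
      refine integral_congr_ae (Filter.Eventually.of_forall fun z => ?_)
      show _ * (_ - a) + _ * a = _
      ring
    rw [integral_add hdi hba, integral_mul_const, hb1] at h1
    exact eq_neg_of_add_eq_zero_left h1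
  have hn : ‖∫ z, b (((1 : ℝ)⁻¹ * (aN (mt z))⁻¹) • mt z) *
      (F (g0 * (mt z)⁻¹) x0 - a) ∂μ‖ ≤ tb m χ δ * (‖a‖ / 2) := by
    refine (norm_integral_le_of_norm_le (hbi1.norm.mul_const (‖a‖ / 2)) hae).trans ?_
    rw [integral_mul_const, hb2]
  rw [hsum, norm_neg, norm_mul, Complex.norm_real, Real.norm_of_nonneg htp.le] at hn
  have : 0 < tb m χ δ * ‖a‖ := mul_pos htp ha
  nlinarith

end Pool.Agent.H50.GA
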